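import Pool.Agent.TH752.RL.Lat

/-!
MP_789b02_lc, Q1, in the negated form, for the pentagon: the pentagon `0 < a < b < 1`, `0 < c < 1`
with `C = {0, b, 1}` is a ranked lattice which satisfies (A) and (B), with `0 ∈ C`, and there is a
model `M` of PA such that no elementary end extension `N` of `M` has `Lt*(N/M)` isomorphic to it.

The model is obtained
from the standard model by iterating a definable type omega one times; by a pressing down argument
all its elementary end extensions are conservative, and a conservative extension does not realise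
the pentagon with `b ∈ C`.
-/

set_option autoImplicit false

open FirstOrder FirstOrder.Language

universe u w

namespace Pool.Agent.Results.MP_789b02_lc.PentagonNotRealised

open Pool.Agent.Helper227.EN (LA PA AR)
open Pool.Agent.TH752.RL

/-- `r` is the rank of `z` in the ranked lattice `(L, C)`: `r = min {c ∈ C : z ≤ c}`. -/
def IsBar {L : Type} [Lattice L] (C : Set L) (z r : L) : Prop := IsLeast {c | c ∈ C ∧ z ≤ c} r

/-- `(L, C)` is a ranked lattice: `C` is a chain in the finite lattice `L` and `1 ∈ C`. -/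
structure IsRanked (L : Type) [Lattice L] [BoundedOrder L] (C : Set L) : Prop where
  finite : Finite L
  chain : IsChain (· ≤ ·) C
  top_mem : ⊤ ∈ C

/-- Condition (A): if `x` and `y` have the same rank, then `x ∧ y` has the same rank. -/
def CondA {L : Type} [Lattice L] (C : Set L) : Prop :=
  ∀ x y r : L, IsBar C x r → IsBar C y r → IsBar C (x ⊓ y) r

/-- Condition (B): if `x ∨ w = y ∨ w = z`, `x ∧ w = y ∧ w` and `w = r ∧ z`, where `r` is the rank
of `w`, then `x = y`. -/
def CondB {L : Type} [Lattice L] (C : Set L) : Prop :=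
  ∀ w x y z r : L, IsBar C w r → x ⊔ w = z → y ⊔ w = z → x ⊓ w = y ⊓ w → w = r ⊓ z → x = y

/-- The structure `N` is an end extension of its subset `K`: every element outside `K` exceeds
every element of `K`. -/
def IsEnd {N : Type u} [LA.Structure N] (K : Set N) : Prop :=
  ∀ x ∈ K, ∀ y, y ∉ K → Structure.RelMap (L := LA) AR.lt ![x, y]

/-- `Lt(N/M)`, for an elementary embedding `f` of `M` in `N`: the elementary substructures of `N`
which include the image of `M`, ordered by inclusion. -/
abbrev Lt {M : Type w} {N : Type u} [LA.Structure M] [LA.Structure N] (f : M ↪ₑ[LA] N) : Type u :=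
  {K : LA.ElementarySubstructure N // Set.range f ⊆ (K : Set N)}

/-- In a ranked lattice each element has exactly one rank (not used below). -/
theorem existsUnique_bar {L : Type} [Lattice L] [BoundedOrder L] {C : Set L} (h : IsRanked L C)
    (z : L) : ∃! r, IsBar C z r := by
  have := h.finite
  obtain ⟨r, hr⟩ := (Set.toFinite {c | c ∈ C ∧ z ≤ c}).exists_minimal ⟨⊤, h.top_mem, le_top⟩
  have hleast : IsBar C z r := by
    refine ⟨hr.1, fun c hc => ?_⟩
    rcases h.chain.total hr.1.1 hc.1 with h1 | h1
    · exact h1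
    · exact hr.2 hc h1
  exact ⟨r, hleast, fun r' hr' => IsLeast.unique hr' hleast⟩

/-- the ranks of the elements of the pentagon, for `C = {0, b, 1}` -/
def rk : P5 → P5
  | P5.o => P5.o
  | P5.a => P5.b
  | P5.b => P5.b
  | P5.c => P5.i
  | P5.i => P5.i

theorem rk_spec (z : P5) : IsBar ({P5.o, P5.b, P5.i} : Set P5) z (rk z) := by
  refine ⟨⟨?_, ?_⟩, ?_⟩
  · cases z <;> simp [rk]
  · cases z <;> decide
  · rintro t ⟨ht, hzt⟩
    rcases ht with rfl | rfl | rfl <;> revert hzt <;> cases z <;> decide

theorem bar_eq {z r : P5} (h : IsBar ({P5.o, P5.b, P5.i} : Set P5) z r) : r = rk z :=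
  IsLeast.unique h (rk_spec z)

/-- the set `{0, b, 1}` of elements of the pentagon -/
def C5 : Set P5 := {P5.o, P5.b, P5.i}

/-- The pentagon `P5` with `C = {0, b, 1}` is a ranked lattice which satisfies (A) and (B), with
`0 ∈ C`, and there is a model `M` of PA such that no elementary end extension `N` of `M` has
`Lt*(N/M)` isomorphic to it. -/
theorem result : IsRanked P5 C5 ∧ CondA C5 ∧ CondB C5 ∧ ⊥ ∈ C5 ∧
    ∃ (M : Type) (_ : LA.Structure M), M ⊨ PA ∧
      ∀ (N : Type u) [LA.Structure N] (f : M ↪ₑ[LA] N), IsEnd (Set.range f) →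
        ¬ ∃ e : P5 ≃o Lt f, ∀ z : P5, z ∈ C5 ↔ IsEnd ((e z).1 : Set N) := by
  obtain ⟨p, h1, h2, h3⟩ := exists_type
  have hp : IsType p := ⟨h1, h2, h3⟩
  refine ⟨⟨inferInstance, ?_, ?_⟩, ?_, ?_, ?_, ↥(MM hp), inferInstance, MM_PA hp, ?_⟩
  · intro x hx y hy _
    rcases hx with rfl | rfl | rfl <;> rcases hy with rfl | rfl | rfl <;> decide
  · exact Or.inr (Or.inr rfl)
  · intro x y r hx hy
    have e1 := bar_eq hx
    have e2 := bar_eq hy
    have key : ∀ x y : P5, rk x = rk y → rk (x ⊓ y) = rk x := by decide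
    have e3 := key x y (e1.symm.trans e2)
    have e4 := rk_spec (x ⊓ y)
    rw [e3, ← e1] at e4
    exact e4
  · intro w x y z r hw h4 h5 h6 h7
    have e1 := bar_eq hw
    subst e1
    have key : ∀ w x y z : P5, x ⊔ w = z → y ⊔ w = z → x ⊓ w = y ⊓ w → w = rk w ⊓ z → x = y := by
      decide
    exact key w x y z h4 h5 h6 h7
  · exact Or.inl rfl
  · rintro N _ f hf ⟨e, he⟩
    refine no_pentagon hp f (fun x y hy => hf (f x) ⟨x, rfl⟩ y hy) e fun x hx y hy => ?_
    exact (he P5.b).1 (Or.inr (Or.inl rfl)) x hx y hy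

end Pool.Agent.Results.MP_789b02_lc.PentagonNotRealised
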